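import Pool.Agent.H66.ER2.Targets
import Pool.Agent.H48.ER.Lib

/-!
# MP_816b90_co: symmetries of the structures, path functions and segments
-/

set_option autoImplicit false
set_option linter.unusedVariables false
set_option linter.unusedSectionVars false

namespace Pool.Agent.H66.ER2

open Pool.Agent.H48.ER Pool.Agent.H52.ER2

variable {V : Type} {G : SimpleGraph V}

/-- the vertices `g i, .., g j` -/
def seg (g : ℕ → V) (i j : ℕ) : Set V := {w | ∃ k, i ≤ k ∧ k ≤ j ∧ g k = w}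

theorem mem_seg {g : ℕ → V} {i j k : ℕ} (h1 : i ≤ k) (h2 : k ≤ j) : g k ∈ seg g i j :=
  ⟨k, h1, h2, rfl⟩

theorem IP.pf {n : ℕ} {x y : V} {R : Set V} (h : IP G n x y R) :
    ∃ g : ℕ → V, PF G n g ∧ g 0 = x ∧ g n = y ∧ R = seg g 0 n := by
  obtain ⟨g, g0, gn, gi, ga, hR⟩ := h
  refine ⟨g, ⟨gi, ga⟩, g0, gn, ?_⟩
  rw [hR]; ext v; constructor
  · rintro ⟨i, hi, rfl⟩; exact ⟨i, Nat.zero_le _, hi, rfl⟩
  · rintro ⟨i, _, hi, rfl⟩; exact ⟨i, hi, rfl⟩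

theorem PF.seg {n : ℕ} {g : ℕ → V} (h : PF G n g) {i j : ℕ} (hij : i ≤ j) (hj : j ≤ n) :
    IP G (j - i) (g i) (g j) (seg g i j) := by
  refine ⟨fun k => g (i + k), by simp, ?_, ?_, ?_, ?_⟩
  · show g (i + (j - i)) = g j
    congr 1; omega
  · intro a b ha hb e
    have := h.inj _ _ (by omega) (by omega) e
    omega
  · intro a b ha hb
    show G.Adj (g (i + a)) (g (i + b)) ↔ _
    rw [h.adj _ _ (by omega) (by omega)]
    omega
  · ext v; constructor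
    · rintro ⟨k, h1, h2, rfl⟩
      exact ⟨k - i, by omega, by show g (i + (k - i)) = g k; congr 1; omega⟩
    · rintro ⟨k, h1, rfl⟩
      exact ⟨i + k, by omega, by omega, rfl⟩

theorem PF.ip {n : ℕ} {g : ℕ → V} (h : PF G n g) : IP G n (g 0) (g n) (Pool.Agent.H66.ER2.seg g 0 n)
    := by
  have := h.seg (Nat.zero_le n) le_rfl
  simpa using this

theorem PF.rev {n : ℕ} {g : ℕ → V} (h : PF G n g) : PF G n (fun i => g (n - i)) := by
  constructor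
  · intro i j hi hj e
    have := h.inj _ _ (by omega) (by omega) e
    omega
  · intro i j hi hj
    show G.Adj (g (n - i)) (g (n - j)) ↔ _
    rw [h.adj _ _ (by omega) (by omega)]
    omega

theorem Two.comm23 {v x y z : V} (h : Two G v x y z) : Two G v x z y := by
  rcases h with h | h | h
  · exact Or.inr (Or.inl h)
  · exact Or.inl h
  · exact Or.inr (Or.inr ⟨h.2, h.1⟩)

/-! ### Cycles -/

section

variable {n m : ℕ} {a2 b2 a3 b3 : V} {P Q : Set V}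

theorem Cyc.swap (h : Cyc G n m a2 b2 a3 b3 P Q) : Cyc G m n a3 b3 a2 b2 Q P where
  ipP := h.ipQ
  ipQ := h.ipP
  hn := h.hm
  hm := h.hn
  dis := h.dis.symm
  adj u hu w hw := by
    rw [SimpleGraph.adj_comm, h.adj w hw u hu]
    constructor
    · rintro (⟨e1, e2⟩ | ⟨e1, e2⟩)
      · exact Or.inl ⟨e2, e1⟩
      · exact Or.inr ⟨e2, e1⟩
    · rintro (⟨e1, e2⟩ | ⟨e1, e2⟩)
      · exact Or.inl ⟨e2, e1⟩
      · exact Or.inr ⟨e2, e1⟩

theorem Cyc.flip (h : Cyc G n m a2 b2 a3 b3 P Q) : Cyc G n m b2 a2 b3 a3 P Q where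
  ipP := h.ipP.rev
  ipQ := h.ipQ.rev
  hn := h.hn
  hm := h.hm
  dis := h.dis
  adj u hu w hw := by rw [h.adj u hu w hw]; exact Or.comm

/-- the cycle as a function -/
theorem Cyc.fn (h : Cyc G n m a2 b2 a3 b3 P Q) : ∃ g : ℕ → V, g 0 = a2 ∧ g n = b2 ∧
    g (n + 1) = b3 ∧ g (n + m + 1) = a3 ∧ P = seg g 0 n ∧ Q = seg g (n + 1) (n + m + 1) ∧
    (∀ i j, i ≤ n + m + 1 → j ≤ n + m + 1 → g i = g j → i = j) ∧
    ∀ i j, i ≤ n + m + 1 → j ≤ n + m + 1 → (G.Adj (g i) (g j) ↔ i + 1 = j ∨ j + 1 = i ∨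
      (i = 0 ∧ j = n + m + 1) ∨ (j = 0 ∧ i = n + m + 1)) := by
  obtain ⟨p, hp, p0, pn, hP⟩ := IP.pf h.ipP
  obtain ⟨q, hq, q0, qm, hQ⟩ := IP.pf h.ipQ
  have hpP : ∀ i, i ≤ n → p i ∈ P := fun i hi => by rw [hP]; exact mem_seg (Nat.zero_le _) hi
  have hqQ : ∀ i, i ≤ m → q i ∈ Q := fun i hi => by rw [hQ]; exact mem_seg (Nat.zero_le _) hi
  have hne : ∀ a ∈ P, ∀ b ∈ Q, a ≠ b := fun a ha b hb hab =>
    Set.disjoint_left.1 h.dis ha (hab ▸ hb)
  have hn1 : 1 ≤ n := h.hn.pos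
  have hm1 : 1 ≤ m := h.hm.pos
  have hx : ∀ i j, i ≤ n → j ≤ m → (G.Adj (p i) (q j) ↔ (i = 0 ∧ j = 0) ∨ (i = n ∧ j = m)) := by
    intro i j hi hj
    rw [h.adj _ (hpP i hi) _ (hqQ j hj)]
    constructor
    · rintro (⟨e1, e2⟩ | ⟨e1, e2⟩)
      · exact Or.inl ⟨hp.inj _ _ hi (Nat.zero_le _) (e1.trans p0.symm),
          hq.inj _ _ hj (Nat.zero_le _) (e2.trans q0.symm)⟩
      · exact Or.inr ⟨hp.inj _ _ hi le_rfl (e1.trans pn.symm),
          hq.inj _ _ hj le_rfl (e2.trans qm.symm)⟩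
    · rintro (⟨rfl, rfl⟩ | ⟨rfl, rfl⟩)
      · exact Or.inl ⟨p0, q0⟩
      · exact Or.inr ⟨pn, qm⟩
  let g : ℕ → V := fun i => if i ≤ n then p i else q (n + m + 1 - i)
  have g1 : ∀ i, i ≤ n → g i = p i := fun i hi => by simp [g, hi]
  have g2 : ∀ i, ¬ i ≤ n → g i = q (n + m + 1 - i) := fun i hi => by simp [g, hi]
  refine ⟨g, ?_, ?_, ?_, ?_, ?_, ?_, ?_, ?_⟩
  · rw [g1 0 (Nat.zero_le _), p0]
  · rw [g1 n le_rfl, pn]
  · rw [g2 _ (by omega), show n + m + 1 - (n + 1) = m by omega, qm]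
  · rw [g2 _ (by omega), show n + m + 1 - (n + m + 1) = 0 by omega, q0]
  · rw [hP]; ext v; constructor
    · rintro ⟨k, h1, h2, rfl⟩; exact ⟨k, h1, h2, g1 k h2⟩
    · rintro ⟨k, h1, h2, rfl⟩; exact ⟨k, h1, h2, (g1 k h2).symm⟩
  · rw [hQ]; ext v; constructor
    · rintro ⟨k, h1, h2, rfl⟩
      refine ⟨n + m + 1 - k, by omega, by omega, ?_⟩
      rw [g2 _ (by omega), show n + m + 1 - (n + m + 1 - k) = k by omega]
    · rintro ⟨k, h1, h2, rfl⟩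
      exact ⟨n + m + 1 - k, by omega, by omega, (g2 k (by omega)).symm⟩
  · intro i j hi hj e
    by_cases h1 : i ≤ n <;> by_cases h2 : j ≤ n
    · rw [g1 i h1, g1 j h2] at e
      exact hp.inj _ _ h1 h2 e
    · rw [g1 i h1, g2 j h2] at e
      exact absurd e (hne _ (hpP i h1) _ (hqQ _ (by omega)))
    · rw [g2 i h1, g1 j h2] at e
      exact absurd e.symm (hne _ (hpP j h2) _ (hqQ _ (by omega)))
    · rw [g2 i h1, g2 j h2] at e
      have := hq.inj _ _ (by omega) (by omega) e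
      omega
  · intro i j hi hj
    by_cases h1 : i ≤ n <;> by_cases h2 : j ≤ n
    · rw [g1 i h1, g1 j h2, hp.adj i j h1 h2]; omega
    · rw [g1 i h1, g2 j h2, hx i _ h1 (by omega)]; omega
    · rw [g2 i h1, g1 j h2, SimpleGraph.adj_comm, hx j _ h2 (by omega)]; omega
    · rw [g2 i h1, g2 j h2, hq.adj _ _ (by omega) (by omega)]; omega

/-- a proper segment of the cycle is a chordless path -/
theorem cyc_seg {N : ℕ} {g : ℕ → V} (gi : ∀ i j, i ≤ N → j ≤ N → g i = g j → i = j)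
    (ga : ∀ i j, i ≤ N → j ≤ N → (G.Adj (g i) (g j) ↔ i + 1 = j ∨ j + 1 = i ∨
      (i = 0 ∧ j = N) ∨ (j = 0 ∧ i = N))) {i j : ℕ} (hij : i ≤ j) (hj : j ≤ N)
    (hne : ¬ (i = 0 ∧ j = N)) : IP G (j - i) (g i) (g j) (seg g i j) := by
  refine ⟨fun k => g (i + k), by simp, ?_, ?_, ?_, ?_⟩
  · show g (i + (j - i)) = g j
    congr 1; omega
  · intro a b ha hb e
    have := gi _ _ (by omega) (by omega) e
    omega
  · intro a b ha hb
    show G.Adj (g (i + a)) (g (i + b)) ↔ _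
    rw [ga _ _ (by omega) (by omega)]
    omega
  · ext v; constructor
    · rintro ⟨k, h1, h2, rfl⟩
      exact ⟨k - i, by omega, by show g (i + (k - i)) = g k; congr 1; omega⟩
    · rintro ⟨k, h1, rfl⟩
      exact ⟨i + k, by omega, by omega, rfl⟩

end

/-! ### Split prisms -/

section

variable {l r n m : ℕ} {a1 x b1 y a2 b2 a3 b3 : V} {L R P Q : Set V}

theorem vS_flip (L R P Q : Set V) : vS R L P Q = vS L R P Q := by
  unfold vS; rw [Set.union_comm R L]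

theorem vS_swap (L R P Q : Set V) : vS L R Q P = vS L R P Q := by
  unfold vS; rw [Set.union_assoc, Set.union_comm Q P, ← Set.union_assoc]

theorem SPr.flip (h : SPr G l r n m a1 x b1 y a2 b2 a3 b3 L R P Q) :
    SPr G r l n m b1 y a1 x b2 a2 b3 a3 R L P Q where
  ipL := h.ipR
  ipR := h.ipL
  ipP := h.ipP.rev
  ipQ := h.ipQ.rev
  oLR := by rw [Nat.add_comm]; exact h.oLR
  oP := h.oP
  oQ := h.oQ
  dLR := h.dLR.symm
  dLP := h.dRP
  dLQ := h.dRQ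
  dRP := h.dLP
  dRQ := h.dLQ
  dPQ := h.dPQ
  eLR u hu w hw e := h.eLR w hw u hu e.symm
  eLP := h.eRP
  eLQ := h.eRQ
  eRP := h.eLP
  eRQ := h.eLQ
  ePQ u hu w hw := by rw [h.ePQ u hu w hw]; exact Or.comm

theorem SPr.cyc (h : SPr G l r n m a1 x b1 y a2 b2 a3 b3 L R P Q) :
    Cyc G n m a2 b2 a3 b3 P Q where
  ipP := h.ipP
  ipQ := h.ipQ
  hn := h.oP
  hm := h.oQ
  dis := h.dPQ
  adj := h.ePQ

theorem SPr.swap (h : SPr G l r n m a1 x b1 y a2 b2 a3 b3 L R P Q) :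
    SPr G l r m n a1 x b1 y a3 b3 a2 b2 L R Q P where
  ipL := h.ipL
  ipR := h.ipR
  ipP := h.ipQ
  ipQ := h.ipP
  oLR := h.oLR
  oP := h.oQ
  oQ := h.oP
  dLR := h.dLR
  dLP := h.dLQ
  dLQ := h.dLP
  dRP := h.dRQ
  dRQ := h.dRP
  dPQ := h.dPQ.symm
  eLR := h.eLR
  eLP := h.eLQ
  eLQ := h.eLP
  eRP := h.eRQ
  eRQ := h.eRP
  ePQ := h.cyc.swap.adj

theorem SPr.a1_mem (h : SPr G l r n m a1 x b1 y a2 b2 a3 b3 L R P Q) : a1 ∈ L := h.ipL.left_mem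
theorem SPr.x_mem (h : SPr G l r n m a1 x b1 y a2 b2 a3 b3 L R P Q) : x ∈ L := h.ipL.right_mem
theorem SPr.b1_mem (h : SPr G l r n m a1 x b1 y a2 b2 a3 b3 L R P Q) : b1 ∈ R := h.ipR.left_mem
theorem SPr.y_mem (h : SPr G l r n m a1 x b1 y a2 b2 a3 b3 L R P Q) : y ∈ R := h.ipR.right_mem
theorem SPr.a2_mem (h : SPr G l r n m a1 x b1 y a2 b2 a3 b3 L R P Q) : a2 ∈ P := h.ipP.left_mem
theorem SPr.b2_mem (h : SPr G l r n m a1 x b1 y a2 b2 a3 b3 L R P Q) : b2 ∈ P := h.ipP.right_mem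
theorem SPr.a3_mem (h : SPr G l r n m a1 x b1 y a2 b2 a3 b3 L R P Q) : a3 ∈ Q := h.ipQ.left_mem
theorem SPr.b3_mem (h : SPr G l r n m a1 x b1 y a2 b2 a3 b3 L R P Q) : b3 ∈ Q := h.ipQ.right_mem

end

/-! ### The context of the a-side lemma -/

section

variable {l n m i j : ℕ} {a1 c a2 b2 a3 b3 v g g' : V} {D P Q R1 R2 : Set V}

theorem ACx.swap (h : ACx G l n m a1 c a2 b2 a3 b3 D P Q) :
    ACx G l m n a1 c a3 b3 a2 b2 D Q P where
  cy := h.cy.swap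
  ipD := h.ipD
  hl := h.hl
  dis := by rw [Set.union_comm]; exact h.dis
  a12 := h.a13
  a13 := h.a12
  on u hu huc w hw e := by
    rw [Set.union_comm] at hw
    obtain ⟨h1, h2⟩ := h.on u hu huc w hw e
    exact ⟨h1, h2.symm⟩
  see := by
    obtain ⟨w, hw, e⟩ := h.see
    exact ⟨w, by rw [Set.union_comm]; exact hw, e⟩

theorem VCx.swap (h : VCx G v a1 c a2 b2 a3 b3 D P Q) : VCx G v a1 c a3 b3 a2 b2 D Q P where
  nco := h.nco
  nD := h.nD
  nH := by rw [Set.union_comm]; exact h.nH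
  vc := h.vc
  ta := h.ta.comm23
  tb := h.tb.symm
  nc w hw e := h.nc w (by rw [Set.union_comm P Q]; exact hw) e

theorem HTwo.swap (h : HTwo G n m i j c a2 b2 a3 b3 g g' R1 R2 P Q) :
    HTwo G m n j i c a3 b3 a2 b2 g' g R2 R1 Q P where
  ip1 := h.ip2
  ip2 := h.ip1
  hij := by have := h.hij; omega
  un := by rw [Set.union_comm, h.un, Set.union_comm]
  dis := h.dis.symm
  adj u hu w hw := by
    rw [SimpleGraph.adj_comm, h.adj w hw u hu]
    constructor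
    · rintro (⟨e1, e2⟩ | ⟨e1, e2⟩)
      · exact Or.inl ⟨e2, e1⟩
      · exact Or.inr ⟨e2, e1⟩
    · rintro (⟨e1, e2⟩ | ⟨e1, e2⟩)
      · exact Or.inl ⟨e2, e1⟩
      · exact Or.inr ⟨e2, e1⟩
  nb w hw := by
    rw [Set.union_comm] at hw
    rw [h.nb w hw]; exact Or.comm
  pos := by
    rcases h.pos with ⟨h1, h2, h3, h4⟩ | ⟨k, S, h1, h2, h3, h4, h5, h6⟩ |
      ⟨k, S, h1, h2, h3, h4, h5, h6⟩
    · exact Or.inl ⟨h2, h1, h4, h3⟩
    · exact Or.inr (Or.inr ⟨k, S, h1, h2, h3, h4, h5, h6⟩)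
    · exact Or.inr (Or.inl ⟨k, S, h1, h2, h3, h4, h5, h6⟩)

end

/-! ### Contexts of the good pair rows -/

theorem Ty0.congr {n : ℕ} {z z' : ℕ → V} {c : V} (h : Ty0 G n z c) (hw : Wz n z' = Wz n z) :
    Ty0 G n z' c := by
  intro w hw'
  rw [hw] at hw'
  exact h w hw'

end Pool.Agent.H66.ER2
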