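import Pool.Agent.H52.ER2.Base

/-!
# MP_816b90_co: outer paths, outgoing paths, split prisms. Definitions.
-/

set_option autoImplicit false

namespace Pool.Agent.H66.ER2

open Pool.Agent.H48.ER Pool.Agent.H52.ER2

variable {V : Type}

/-- `g 0, .., g n` is a chordless path -/
structure PF (G : SimpleGraph V) (n : ℕ) (g : ℕ → V) : Prop where
  inj : ∀ i j, i ≤ n → j ≤ n → g i = g j → i = j
  adj : ∀ i j, i ≤ n → j ≤ n → (G.Adj (g i) (g j) ↔ i + 1 = j ∨ j + 1 = i)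

/-- `z 0, .., z n` is an outer path: the ends are neighbours of `v`, the interior vertices are not
-/
structure Ou (G : SimpleGraph V) (v : V) (n : ℕ) (z : ℕ → V) : Prop where
  pf : PF G n z
  two : 2 ≤ n
  left : G.Adj v (z 0)
  right : G.Adj v (z n)
  int : ∀ i, 0 < i → i < n → z i ≠ v ∧ ¬ G.Adj v (z i)

/-- a shortest outer path -/
structure SO (G : SimpleGraph V) (v : V) (n : ℕ) (z : ℕ → V) : Prop extends Ou G v n z where
  mn : ∀ (n' : ℕ) (z' : ℕ → V), Ou G v n' z' → n ≤ n'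

/-- the interior of the path -/
def Wz (n : ℕ) (z : ℕ → V) : Set V := {w | ∃ i, 0 < i ∧ i < n ∧ z i = w}

/-- the neighbours of `v` whose only neighbour in the interior is `z 1` -/
def sA (G : SimpleGraph V) (v : V) (n : ℕ) (z : ℕ → V) : Set V :=
  {c | G.Adj v c ∧ G.Adj c (z 1) ∧ ∀ i, 1 < i → i < n → ¬ G.Adj c (z i)}

/-- the neighbours of `v` whose only neighbour in the interior is `z (n - 1)` -/
def sB (G : SimpleGraph V) (v : V) (n : ℕ) (z : ℕ → V) : Set V :=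
  {c | G.Adj v c ∧ G.Adj c (z (n - 1)) ∧ ∀ i, 0 < i → i + 1 < n → ¬ G.Adj c (z i)}

/-- an outgoing path: from `sA` to `sB`, no other vertices in `sA` and `sB` -/
structure Og (G : SimpleGraph V) (v : V) (n : ℕ) (z : ℕ → V) (m : ℕ) (a b : V) (R : Set V) :
    Prop where
  ip : IP G m a b R
  inA : a ∈ sA G v n z
  inB : b ∈ sB G v n z
  onlyA : ∀ w ∈ R, w ∈ sA G v n z → w = a
  onlyB : ∀ w ∈ R, w ∈ sB G v n z → w = b

/-- a split prism: paths `L` from `a1` to `x`, `R` from `b1` to `y`, `P` from `a2` to `b2`, `Q`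
from `a3` to `b3`, with the triangles `a1 a2 a3` and `b1 b2 b3` and no other edges -/
structure SPr (G : SimpleGraph V) (l r n m : ℕ) (a1 x b1 y a2 b2 a3 b3 : V) (L R P Q : Set V) :
    Prop where
  ipL : IP G l a1 x L
  ipR : IP G r b1 y R
  ipP : IP G n a2 b2 P
  ipQ : IP G m a3 b3 Q
  oLR : Odd (l + r)
  oP : Odd n
  oQ : Odd m
  dLR : Disjoint L R
  dLP : Disjoint L P
  dLQ : Disjoint L Q
  dRP : Disjoint R P
  dRQ : Disjoint R Q
  dPQ : Disjoint P Q
  eLR : NE G L R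
  eLP : XE G L P a1 a2
  eLQ : XE G L Q a1 a3
  eRP : XE G R P b1 b2
  eRQ : XE G R Q b1 b3
  ePQ : ∀ u ∈ P, ∀ w ∈ Q, G.Adj u w ↔ (u = a2 ∧ w = a3) ∨ (u = b2 ∧ w = b3)

/-- the vertex set of a split prism -/
def vS (L R P Q : Set V) : Set V := L ∪ R ∪ P ∪ Q

/-- the vertex `v` is a corner of a prism -/
def Cor (G : SimpleGraph V) (v : V) : Prop :=
  ∃ (a b : Fin 3 → V) (n : Fin 3 → ℕ) (P : Fin 3 → Set V), Prism G a b n P ∧ v = a 0

/-- `v` has at least two neighbours among `x`, `y`, `z` -/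
def Two (G : SimpleGraph V) (v x y z : V) : Prop :=
  (G.Adj v x ∧ G.Adj v y) ∨ (G.Adj v x ∧ G.Adj v z) ∨ (G.Adj v y ∧ G.Adj v z)

/-- on the split prism `v` has exactly two neighbours in `P ∪ Q`, the vertex `a2` and the next
vertex `c` of `P`, and `v` is adjacent to `a1` -/
def TAl (G : SimpleGraph V) (v a1 a2 b2 : V) (n : ℕ) (P Q : Set V) : Prop :=
  G.Adj v a1 ∧ ∃ c ∈ P, c ≠ b2 ∧ G.Adj a2 c ∧ G.Adj v c ∧ 3 ≤ n ∧
    ∀ w, w ∈ P ∨ w ∈ Q → (G.Adj v w ↔ w = a2 ∨ w = c)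

/-- `c` has no neighbours in the interior of the path -/
def Ty0 (G : SimpleGraph V) (n : ℕ) (z : ℕ → V) (c : V) : Prop := ∀ w ∈ Wz n z, ¬ G.Adj c w

end Pool.Agent.H66.ER2
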