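import Pool.Agent.H66.ER2.Defs
import Pool.Agent.H48.ER.Targets

/-!
# MP_816b90_co: meets and good pairs. Targets (board erg_modules).

All closed rows of `Pool.Agent.H48.ER.All` may be used.
-/

set_option autoImplicit false

namespace Pool.Agent.H66.ER2

open Pool.Agent.H48.ER Pool.Agent.H52.ER2

/-! ### T. Tools -/

/-- (LAB) labels on a path with an odd number of edges. -/
def T_LAB : Prop := ∀ (N : ℕ) (L1 L2 : ℕ → Prop), Odd N → 3 ≤ N → L1 0 → L2 0 → L1 N → L2 N →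
  (∀ i, 0 < i → i < N → ¬ (L1 i ∧ L2 i)) →
  (∀ i j, i < j → j ≤ N → L1 i → L1 j → (∀ k, i < k → k < j → ¬ L1 k) → j = i + 1 ∨ Even (j - i)) →
  (∀ i j, i < j → j ≤ N → L2 i → L2 j → (∀ k, i < k → k < j → ¬ L2 k) → j = i + 1 ∨ Even (j - i)) →
  ∃ i j, 0 < i ∧ i < N ∧ 0 < j ∧ j < N ∧ L1 i ∧ L2 j ∧ (∀ k, i < k → k < j → ¬ L1 k ∧ ¬ L2 k) ∧
    (∀ k, j < k → k < i → ¬ L1 k ∧ ¬ L2 k) ∧ Odd (i + j)

/-- the neighbours of `c` on the cycle `P ∪ Q`, seen from the edge `a2 a3`: a single neighbour -/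
def HOne {V : Type} (G : SimpleGraph V) (n m : ℕ) (c a2 a3 g : V) (P Q : Set V) : Prop :=
  g ∈ P ∪ Q ∧ (∀ w ∈ P ∪ Q, G.Adj c w ↔ w = g) ∧ ∃ (i j : ℕ) (R1 R2 : Set V), IP G i a2 g R1 ∧
    IP G j a3 g R2 ∧ i + j = n + m + 1 ∧ R1 ∪ R2 = P ∪ Q ∧ R1 ∩ R2 = {g} ∧
    ∀ u ∈ R1, ∀ w ∈ R2, u ≠ g → w ≠ g → (G.Adj u w ↔ u = a2 ∧ w = a3)

/-- exactly two neighbours `g`, `g'`, which are consecutive on the way from `a2` to `a3` through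
`b2`, `b3` -/
structure HTwo {V : Type} (G : SimpleGraph V) (n m i j : ℕ) (c a2 b2 a3 b3 g g' : V)
    (R1 R2 P Q : Set V) : Prop where
  ip1 : IP G i a2 g R1
  ip2 : IP G j a3 g' R2
  hij : i + j = n + m
  un : R1 ∪ R2 = P ∪ Q
  dis : Disjoint R1 R2
  adj : ∀ u ∈ R1, ∀ w ∈ R2, G.Adj u w ↔ (u = a2 ∧ w = a3) ∨ (u = g ∧ w = g')
  nb : ∀ w ∈ P ∪ Q, G.Adj c w ↔ w = g ∨ w = g'
  pos : (R1 = P ∧ R2 = Q ∧ g = b2 ∧ g' = b3) ∨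
    (∃ (k : ℕ) (S : Set V), IP G k g' b2 S ∧ R1 ∪ S = P ∧ Disjoint R1 S ∧ R2 = Q ∪ S ∧
      i + k + 1 = n ∧ j = m + k + 1) ∨
    ∃ (k : ℕ) (S : Set V), IP G k g b3 S ∧ R2 ∪ S = Q ∧ Disjoint R2 S ∧ R1 = P ∪ S ∧
      j + k + 1 = m ∧ i = n + k + 1

/-- the first neighbour `g` from `a2` and the first neighbour `g'` from `a3` are different and not
consecutive (`g = a2`, `g' = a3` is allowed) -/
def HFar {V : Type} (G : SimpleGraph V) (c a2 a3 g g' : V) (P Q : Set V) : Prop :=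
  ∃ (i j : ℕ) (R1 R2 : Set V), IP G i a2 g R1 ∧ IP G j a3 g' R2 ∧ R1 ⊆ P ∪ Q ∧ R2 ⊆ P ∪ Q ∧
    Disjoint R1 R2 ∧ (∀ u ∈ R1, ∀ w ∈ R2, G.Adj u w ↔ u = a2 ∧ w = a3) ∧
    (∀ w ∈ R1, G.Adj c w ↔ w = g) ∧ ∀ w ∈ R2, G.Adj c w ↔ w = g'

/-- two paths with the edges `a2 a3` and `b2 b3` between them -/
structure Cyc {V : Type} (G : SimpleGraph V) (n m : ℕ) (a2 b2 a3 b3 : V) (P Q : Set V) : Prop where
  ipP : IP G n a2 b2 P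
  ipQ : IP G m a3 b3 Q
  hn : Odd n
  hm : Odd m
  dis : Disjoint P Q
  adj : ∀ u ∈ P, ∀ w ∈ Q, G.Adj u w ↔ (u = a2 ∧ w = a3) ∨ (u = b2 ∧ w = b3)

/-- (HTR) the neighbours of a vertex on a cycle. -/
def T_HTR : Prop := ∀ (V : Type) (G : SimpleGraph V) (n m : ℕ) (c a2 b2 a3 b3 : V) (P Q : Set V),
  Cyc G n m a2 b2 a3 b3 P Q → c ∉ P ∪ Q → (∃ w ∈ P ∪ Q, G.Adj c w) →
  (∃ g, HOne G n m c a2 a3 g P Q) ∨
  (∃ (i j : ℕ) (g g' : V) (R1 R2 : Set V), HTwo G n m i j c a2 b2 a3 b3 g g' R1 R2 P Q) ∨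
  ∃ g g', HFar G c a2 a3 g g' P Q

/-- a path `D` from `a1` to `c`; `a1` is adjacent to `a2`, `a3`; only `a1` and `c` have neighbours
on the cycle `P ∪ Q` -/
structure ACx {V : Type} (G : SimpleGraph V) (l n m : ℕ) (a1 c a2 b2 a3 b3 : V) (D P Q : Set V) :
    Prop where
  cy : Cyc G n m a2 b2 a3 b3 P Q
  ipD : IP G l a1 c D
  hl : 1 ≤ l
  dis : Disjoint D (P ∪ Q)
  a12 : G.Adj a1 a2
  a13 : G.Adj a1 a3
  on : ∀ u ∈ D, u ≠ c → ∀ w ∈ P ∪ Q, G.Adj u w → u = a1 ∧ (w = a2 ∨ w = a3)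
  see : ∃ w ∈ P ∪ Q, G.Adj c w

/-- (ASD) attachments of the end of such a path. -/
def T_ASD : Prop := ∀ (V : Type) (G : SimpleGraph V) (l n m : ℕ) (a1 c a2 b2 a3 b3 : V)
  (D P Q : Set V), NOH G → ACx G l n m a1 c a2 b2 a3 b3 D P Q →
  (∀ w ∈ P ∪ Q, G.Adj c w ↔ w = a2) ∨ (∀ w ∈ P ∪ Q, G.Adj c w ↔ w = a3) ∨ Two G c a1 a2 a3 ∨
  ∃ (i j : ℕ) (g g' : V) (R1 R2 : Set V), HTwo G n m i j c a2 b2 a3 b3 g g' R1 R2 P Q

/-! ### M. Meets -/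

/-- (MNH) no odd hole in the meet. -/
def T_MNH : Prop := ∀ (V : Type) (G : SimpleGraph V) (s t : V), NOH G → NOP G → s ≠ t →
  ¬ G.Adj s t → NOH (mt G s t)

/-- (MNA) no antihole in the meet. -/
def T_MNA : Prop := ∀ (V : Type) (G : SimpleGraph V) (s t : V), NAH G → s ≠ t →
  ¬ G.Adj s t → NAH (mt G s t)

/-- (MPC) the new vertex is not a corner of an odd prism: the triangle is `{t, a2, a3}`, the rung of
`t` continues with the path `Y` from `y` to `b1`. -/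
def T_MPC : Prop := ∀ (V : Type) (G : SimpleGraph V) (s t : V) (k n m : ℕ)
  (y b1 a2 b2 a3 b3 : V) (Y P Q : Set V), NOH G → NOP G → NAH G → s ≠ t → ¬ G.Adj s t →
  Cyc G n m a2 b2 a3 b3 P Q → IP G k y b1 Y → Even k → Disjoint Y (P ∪ Q) →
  (∀ u ∈ Y, ∀ w ∈ P ∪ Q, G.Adj u w ↔ u = b1 ∧ (w = b2 ∨ w = b3)) →
  s ∉ Y ∪ (P ∪ Q) → t ∉ Y ∪ (P ∪ Q) →
  (∀ w ∈ Y ∪ (P ∪ Q), (G.Adj s w ∧ G.Adj t w) ↔ w = y ∨ w = a2 ∨ w = a3) → False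

/-- (MPI) the new vertex is not an interior vertex of an odd prism. -/
def T_MPI : Prop := ∀ (V : Type) (G : SimpleGraph V) (s t : V) (l r n m : ℕ)
  (a1 x b1 y a2 b2 a3 b3 : V) (L R P Q : Set V), NOH G → NOP G → s ≠ t → ¬ G.Adj s t →
  SPr G l r n m a1 x b1 y a2 b2 a3 b3 L R P Q → s ∉ vS L R P Q → t ∉ vS L R P Q →
  (∀ w ∈ vS L R P Q, (G.Adj s w ∧ G.Adj t w) ↔ w = x ∨ w = y) → False

/-- (MNP) no odd prism in the meet. -/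
def T_MNP : Prop := ∀ (V : Type) (G : SimpleGraph V) (s t : V), Cls G → s ≠ t →
  ¬ G.Adj s t → NOP (mt G s t)

/-! ### S. A vertex which closes a split prism -/

/-- (SPN) `v` has a neighbour on `P ∪ Q`. -/
def T_SPN : Prop := ∀ (V : Type) (G : SimpleGraph V) (l r n m : ℕ)
  (a1 x b1 y a2 b2 a3 b3 v : V) (L R P Q : Set V), NOH G → NOP G →
  SPr G l r n m a1 x b1 y a2 b2 a3 b3 L R P Q → v ∉ vS L R P Q → G.Adj v x → G.Adj v y →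
  ∃ w ∈ P ∪ Q, G.Adj v w

/-- (SPE) two consecutive neighbours. -/
def T_SPE : Prop := ∀ (V : Type) (G : SimpleGraph V) (l r n m i j : ℕ)
  (a1 x b1 y a2 b2 a3 b3 v g g' : V) (L R P Q R1 R2 : Set V), NOH G → NOP G →
  SPr G l r n m a1 x b1 y a2 b2 a3 b3 L R P Q → v ∉ vS L R P Q → G.Adj v x → G.Adj v y →
  HTwo G n m i j v a2 b2 a3 b3 g g' R1 R2 P Q →
  Cor G v ∧ (TAl G v a1 a2 b2 n P Q ∨ TAl G v a1 a3 b3 m Q P ∨ TAl G v b1 b2 a2 n P Q ∨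
    TAl G v b1 b3 a3 m Q P)

/-- (SPV) a vertex adjacent to both ends of the split prism. -/
def T_SPV : Prop := ∀ (V : Type) (G : SimpleGraph V) (l r n m : ℕ)
  (a1 x b1 y a2 b2 a3 b3 v : V) (L R P Q : Set V), NOH G → NOP G →
  SPr G l r n m a1 x b1 y a2 b2 a3 b3 L R P Q → v ∉ vS L R P Q → G.Adj v x → G.Adj v y →
  (Two G v a1 a2 a3 ∧ Two G v b1 b2 b3) ∨
  (Cor G v ∧ (TAl G v a1 a2 b2 n P Q ∨ TAl G v a1 a3 b3 m Q P ∨ TAl G v b1 b2 a2 n P Q ∨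
    TAl G v b1 b3 a3 m Q P))

/-! ### A. The a-side lemma -/

/-- the vertex `v` sees two of the `a`'s and `b2` or `b3`, but not `c`; common neighbours of `v` and
`c` are not in `{a1} ∪ P ∪ Q` -/
structure VCx {V : Type} (G : SimpleGraph V) (v a1 c a2 b2 a3 b3 : V) (D P Q : Set V) : Prop where
  nco : NCo G v
  nD : v ∉ D
  nH : v ∉ P ∪ Q
  vc : ¬ G.Adj v c
  ta : Two G v a1 a2 a3
  tb : G.Adj v b2 ∨ G.Adj v b3
  nc : ∀ w, w = a1 ∨ w ∈ P ∪ Q → G.Adj v w → ¬ G.Adj c w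

/-- (VPR) a vertex `v` which sees two corners `a i` and some other vertex of a prism, but no `b i`.
-/
def T_VPR : Prop := ∀ (V : Type) (G : SimpleGraph V) (a b : Fin 3 → V) (n : Fin 3 → ℕ)
  (P : Fin 3 → Set V) (v : V), NOH G → NCo G v → Prism G a b n P → v ∉ ver P →
  (∀ i, ¬ G.Adj v (b i)) → (∃ i j, i ≠ j ∧ G.Adj v (a i) ∧ G.Adj v (a j)) →
  (∃ w ∈ ver P, G.Adj v w ∧ ∀ i, w ≠ a i) →
  ∃ (i j k : Fin 3) (ci cj : V) (S T : Set V), i ≠ j ∧ i ≠ k ∧ j ≠ k ∧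
    (∀ w ∈ P k, ¬ G.Adj v w) ∧ G.Adj v (a i) ∧ G.Adj v (a j) ∧ G.Adj (a i) ci ∧ G.Adj (a j) cj ∧
    IP G (n i - 1) ci (b i) S ∧ P i = insert (a i) S ∧ a i ∉ S ∧ 2 ≤ n i ∧
    IP G (n j - 1) cj (b j) T ∧ P j = insert (a j) T ∧ a j ∉ T ∧ 2 ≤ n j ∧
    (∀ w ∈ S, G.Adj v w ↔ w = ci) ∧ ∀ w ∈ T, G.Adj v w ↔ w = cj

/-- (AS4) a consecutive pair away from `a2` and `a3`. -/
def T_AS4 : Prop := ∀ (V : Type) (G : SimpleGraph V) (l n m i j : ℕ)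
  (a1 c a2 b2 a3 b3 v g g' : V) (D P Q R1 R2 : Set V), NOH G → NOP G →
  ACx G l n m a1 c a2 b2 a3 b3 D P Q → VCx G v a1 c a2 b2 a3 b3 D P Q →
  HTwo G n m i j c a2 b2 a3 b3 g g' R1 R2 P Q → g ≠ a2 → g' ≠ a3 → False

/-- (AS5) a consecutive pair with `g = a2`. -/
def T_AS5 : Prop := ∀ (V : Type) (G : SimpleGraph V) (l n m i j : ℕ)
  (a1 c a2 b2 a3 b3 v g g' : V) (D P Q R1 R2 : Set V), NOH G → NOP G →
  ACx G l n m a1 c a2 b2 a3 b3 D P Q → VCx G v a1 c a2 b2 a3 b3 D P Q →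
  HTwo G n m i j c a2 b2 a3 b3 g g' R1 R2 P Q → g = a2 → False

/-- (ASL) the a-side lemma. -/
def T_ASL : Prop := ∀ (V : Type) (G : SimpleGraph V) (l n m : ℕ) (a1 c a2 b2 a3 b3 v : V)
  (D P Q : Set V), NOH G → NOP G → ACx G l n m a1 c a2 b2 a3 b3 D P Q →
  VCx G v a1 c a2 b2 a3 b3 D P Q →
  (∀ w ∈ P ∪ Q, G.Adj c w ↔ w = a2) ∨ ∀ w ∈ P ∪ Q, G.Adj c w ↔ w = a3

/-! ### O. Outer paths -/

/-- (OUE) outer paths are even. -/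
def T_OUE : Prop := ∀ (V : Type) (G : SimpleGraph V) (v : V) (n : ℕ) (z : ℕ → V), NOH G →
  F1 G v → Ou G v n z → Even n ∧ 4 ≤ n

/-- (OIP) outer paths and sets. -/
def T_OIP : Prop := ∀ (V : Type) (G : SimpleGraph V) (v : V) (n : ℕ),
  (∀ (x y : V) (R : Set V), OutP G v n x y R → ∃ z, Ou G v n z ∧ z 0 = x ∧ z n = y ∧
    R = {w | ∃ i, i ≤ n ∧ z i = w}) ∧
  ∀ z, Ou G v n z → OutP G v n (z 0) (z n) {w | ∃ i, i ≤ n ∧ z i = w}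

/-- (FAB) elementary facts on a shortest outer path. -/
def T_FAB : Prop := ∀ (V : Type) (G : SimpleGraph V) (v : V) (n : ℕ) (z : ℕ → V), NOH G →
  F1 G v → SO G v n z →
  z 0 ∈ sA G v n z ∧ z n ∈ sB G v n z ∧ Clq G (sA G v n z) ∧ Clq G (sB G v n z) ∧
  (∀ a ∈ sA G v n z, ∀ b ∈ sB G v n z, a ≠ b ∧ ¬ G.Adj a b) ∧
  (∀ c, G.Adj v c → c ∉ sA G v n z → c ∉ sB G v n z → (∃ w ∈ Wz n z, G.Adj c w) →
    ∀ d, d ∈ sA G v n z ∨ d ∈ sB G v n z → G.Adj c d)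

/-- (REV) reversal of a shortest outer path. -/
def T_REV : Prop := ∀ (V : Type) (G : SimpleGraph V) (v : V) (n : ℕ) (z : ℕ → V), SO G v n z →
  SO G v n (fun i => z (n - i)) ∧ Wz n (fun i => z (n - i)) = Wz n z ∧
  sA G v n (fun i => z (n - i)) = sB G v n z ∧ sB G v n (fun i => z (n - i)) = sA G v n z

/-- (EXC) exchange of the ends of a shortest outer path. -/
def T_EXC : Prop := ∀ (V : Type) (G : SimpleGraph V) (v : V) (n : ℕ) (z : ℕ → V) (a b : V),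
  NOH G → F1 G v → SO G v n z → a ∈ sA G v n z → b ∈ sB G v n z →
  ∃ z', SO G v n z' ∧ z' 0 = a ∧ z' n = b ∧ (∀ i, 0 < i → i < n → z' i = z i) ∧
    Wz n z' = Wz n z ∧ sA G v n z' = sA G v n z ∧ sB G v n z' = sB G v n z

/-- (OGE) outgoing paths are even (helper56). -/
def T_OGE : Prop := ∀ (V : Type) (G : SimpleGraph V) (v : V) (n : ℕ) (z : ℕ → V) (m : ℕ)
  (a b : V) (R : Set V), Cls G → NCo G v → F1 G v → SO G v n z → Og G v n z m a b R → Even m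

/-! ### G. Good pairs -/

/-- (GSP) an odd prism in the contracted graph gives a split prism. -/
def T_GSP : Prop := ∀ (V : Type) (G : SimpleGraph V) (p q : V) (a b : Fin 3 → V)
  (n : Fin 3 → ℕ) (P : Fin 3 → Set V), NOH G → NOP G → EvP G p q →
  Prism (ctr G p q) a b n P → (∀ i, Odd (n i)) →
  ∃ (l r n' m' : ℕ) (a1 b1 a2 b2 a3 b3 : V) (L R P' Q' : Set V),
    SPr G l r n' m' a1 p b1 q a2 b2 a3 b3 L R P' Q' ∧
    ∀ w ∈ vS L R P' Q', ¬ (G.Adj p w ∧ G.Adj q w)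

/-- the context: a split prism between `sA` and `sB` -/
structure GCx {V : Type} (G : SimpleGraph V) (v : V) (k : ℕ) (z : ℕ → V) (l r n m : ℕ)
    (a1 x b1 y a2 b2 a3 b3 : V) (L R P Q : Set V) : Prop where
  cls : Cls G
  nco : NCo G v
  f1 : F1 G v
  so : SO G v k z
  sp : SPr G l r n m a1 x b1 y a2 b2 a3 b3 L R P Q
  hx : x ∈ sA G v k z
  hy : y ∈ sB G v k z
  nv : v ∉ vS L R P Q
  t0 : ∀ w ∈ vS L R P Q, G.Adj v w → w ∉ sA G v k z → w ∉ sB G v k z → Ty0 G k z w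

/-- only the ends are in `sA`, `sB` -/
def GOn {V : Type} (G : SimpleGraph V) (v : V) (k : ℕ) (z : ℕ → V) (x y : V)
    (L R P Q : Set V) : Prop :=
  (∀ w ∈ vS L R P Q, w ∈ sA G v k z → w = x) ∧ ∀ w ∈ vS L R P Q, w ∈ sB G v k z → w = y

/-- (GFL) symmetries of the context. -/
def T_GFL : Prop := ∀ (V : Type) (G : SimpleGraph V) (v : V) (k : ℕ) (z : ℕ → V)
  (l r n m : ℕ) (a1 x b1 y a2 b2 a3 b3 : V) (L R P Q : Set V),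
  GCx G v k z l r n m a1 x b1 y a2 b2 a3 b3 L R P Q →
  GCx G v k (fun i => z (k - i)) r l n m b1 y a1 x b2 a2 b3 a3 R L P Q ∧
  GCx G v k z l r m n a1 x b1 y a3 b3 a2 b2 L R Q P ∧
  (GOn G v k z x y L R P Q → GOn G v k (fun i => z (k - i)) y x R L P Q ∧
    GOn G v k z x y L R Q P)

/-- (GMJ) `v` sees two of the `a`'s and two of the `b`'s. -/
def T_GMJ : Prop := ∀ (V : Type) (G : SimpleGraph V) (v : V) (k : ℕ) (z : ℕ → V)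
  (l r n m : ℕ) (a1 x b1 y a2 b2 a3 b3 : V) (L R P Q : Set V),
  GCx G v k z l r n m a1 x b1 y a2 b2 a3 b3 L R P Q →
  Two G v a1 a2 a3 ∧ Two G v b1 b2 b3

/-- (GDP) the first vertex of the outer path which sees `P ∪ Q`. -/
def T_GDP : Prop := ∀ (V : Type) (G : SimpleGraph V) (v : V) (k : ℕ) (z : ℕ → V)
  (l r n m : ℕ) (a1 x b1 y a2 b2 a3 b3 : V) (L R P Q : Set V),
  GCx G v k z l r n m a1 x b1 y a2 b2 a3 b3 L R P Q → GOn G v k z x y L R P Q →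
  ∃ (i d : ℕ) (D : Set V), 0 < i ∧ i < k ∧
    (∀ j, 0 < j → j < i → ∀ w ∈ P ∪ Q, ¬ G.Adj (z j) w) ∧
    (∀ j, 0 < j → j ≤ i → z j ∉ P ∪ Q) ∧
    ACx G d n m a1 (z i) a2 b2 a3 b3 D P Q ∧ v ∉ D ∧ (l = 0 → d = i) ∧
    ∀ w ∈ D, w ∈ L ∨ ∃ j, 0 < j ∧ j ≤ i ∧ z j = w

/-- (GOP) the outer path through `a2` (if `1 ≤ l`). -/
def T_GOP : Prop := ∀ (V : Type) (G : SimpleGraph V) (v : V) (k : ℕ) (z : ℕ → V)
  (l r n m : ℕ) (a1 x b1 y a2 b2 a3 b3 : V) (L R P Q : Set V) (i : ℕ),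
  GCx G v k z l r n m a1 x b1 y a2 b2 a3 b3 L R P Q → GOn G v k z x y L R P Q → 1 ≤ l →
  0 < i → i < k → (∀ j, 0 < j → j < i → ∀ w ∈ P ∪ Q, ¬ G.Adj (z j) w) →
  (∀ j, 0 < j → j ≤ i → z j ∉ P ∪ Q) → (∀ w ∈ P ∪ Q, G.Adj (z i) w ↔ w = a2) →
  k ≤ i + 2 ∧ Even i ∧ ¬ G.Adj v a2 ∧ G.Adj v a1 ∧ G.Adj v a3

/-- (GSD) the a-side of a split prism with `1 ≤ l`. -/
def T_GSD : Prop := ∀ (V : Type) (G : SimpleGraph V) (v : V) (k : ℕ) (z : ℕ → V)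
  (l r n m : ℕ) (a1 x b1 y a2 b2 a3 b3 : V) (L R P Q : Set V),
  GCx G v k z l r n m a1 x b1 y a2 b2 a3 b3 L R P Q → GOn G v k z x y L R P Q → 1 ≤ l →
  ∃ i, 0 < i ∧ i < k ∧ k ≤ i + 2 ∧ Even i ∧
    (∀ j, 0 < j → j < i → ∀ w ∈ P ∪ Q, ¬ G.Adj (z j) w) ∧
    (((∀ w ∈ P ∪ Q, G.Adj (z i) w ↔ w = a2) ∧ ¬ G.Adj v a2 ∧ G.Adj v a1 ∧ G.Adj v a3) ∨
      ((∀ w ∈ P ∪ Q, G.Adj (z i) w ↔ w = a3) ∧ ¬ G.Adj v a3 ∧ G.Adj v a1 ∧ G.Adj v a2))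

/-- (GC1) case 1. -/
def T_GC1 : Prop := ∀ (V : Type) (G : SimpleGraph V) (v : V) (k : ℕ) (z : ℕ → V)
  (l r n m : ℕ) (a1 x b1 y a2 b2 a3 b3 : V) (L R P Q : Set V),
  GCx G v k z l r n m a1 x b1 y a2 b2 a3 b3 L R P Q → GOn G v k z x y L R P Q → 1 ≤ l →
  1 ≤ r → False

/-- (GC2) case 2. -/
def T_GC2 : Prop := ∀ (V : Type) (G : SimpleGraph V) (v : V) (k : ℕ) (z : ℕ → V)
  (l r n m : ℕ) (a1 x b1 y a2 b2 a3 b3 : V) (L R P Q : Set V),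
  GCx G v k z l r n m a1 x b1 y a2 b2 a3 b3 L R P Q → GOn G v k z x y L R P Q → l = 0 → False

/-- the context of case 3 -/
structure G3x {V : Type} (G : SimpleGraph V) (v : V) (k : ℕ) (z : ℕ → V) (l r n m : ℕ)
    (a1 x b1 y y' a2 b2 a3 b3 : V) (L R P Q R' : Set V) : Prop where
  g : GCx G v k z l r n m a1 x b1 y a2 b2 a3 b3 L R P Q
  hl : l = 0
  h2 : a2 ∈ sA G v k z
  h3 : a3 ∈ sA G v k z
  hy' : y' ∈ sB G v k z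
  ipR' : IP G (r - 1) b1 y' R'
  hR' : R = insert y R'
  nR' : y ∉ R'
  onA : ∀ w ∈ vS L R P Q, w ∈ sA G v k z → w = a1 ∨ w = a2 ∨ w = a3
  onB : ∀ w ∈ vS L R P Q, w ∈ sB G v k z → w = y ∨ w = y'

/-- (G3A) `z 1` sees only `a2` and `a3` on `P ∪ Q`. -/
def T_G3A : Prop := ∀ (V : Type) (G : SimpleGraph V) (v : V) (k : ℕ) (z : ℕ → V)
  (l r n m : ℕ) (a1 x b1 y y' a2 b2 a3 b3 : V) (L R P Q R' : Set V),
  G3x G v k z l r n m a1 x b1 y y' a2 b2 a3 b3 L R P Q R' →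
  z 1 ∉ P ∪ Q ∧ ∀ w ∈ P ∪ Q, G.Adj (z 1) w ↔ w = a2 ∨ w = a3

/-- (GC3) case 3. -/
def T_GC3 : Prop := ∀ (V : Type) (G : SimpleGraph V) (v : V) (k : ℕ) (z : ℕ → V)
  (l r n m : ℕ) (a1 x b1 y y' a2 b2 a3 b3 : V) (L R P Q R' : Set V),
  ¬ G3x G v k z l r n m a1 x b1 y y' a2 b2 a3 b3 L R P Q R'

/-- (GNR) normal forms, interior type (`1 ≤ l`, `1 ≤ r`). -/
def T_GNR : Prop := ∀ (V : Type) (G : SimpleGraph V) (v : V) (k : ℕ) (z : ℕ → V)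
  (l r n m : ℕ) (a1 x b1 y a2 b2 a3 b3 : V) (L R P Q : Set V),
  GCx G v k z l r n m a1 x b1 y a2 b2 a3 b3 L R P Q → 1 ≤ l → 1 ≤ r →
  (∀ w ∈ vS L R P Q, ¬ (G.Adj x w ∧ G.Adj y w)) →
  ∃ (l' r' : ℕ) (x' y' : V) (L' R' : Set V),
    GCx G v k z l' r' n m a1 x' b1 y' a2 b2 a3 b3 L' R' P Q ∧ GOn G v k z x' y' L' R' P Q

/-- (GNC) normal forms, corner type (`l = 0`). -/
def T_GNC : Prop := ∀ (V : Type) (G : SimpleGraph V) (v : V) (k : ℕ) (z : ℕ → V)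
  (l r n m : ℕ) (a1 x b1 y a2 b2 a3 b3 : V) (L R P Q : Set V),
  GCx G v k z l r n m a1 x b1 y a2 b2 a3 b3 L R P Q → l = 0 →
  (∀ w ∈ vS L R P Q, ¬ (G.Adj x w ∧ G.Adj y w)) →
  GOn G v k z x y L R P Q ∨ ∃ (y' : V) (R' : Set V),
    G3x G v k z l r n m a1 x b1 y y' a2 b2 a3 b3 L R P Q R'

/-- (NA5) short antiholes. -/
def T_NA5 : Prop := ∀ (V : Type) (G : SimpleGraph V), NOH G → NOP G →
  (∀ (n : ℕ) (u v c : V) (R : Set V), IP Gᶜ n u v R → 5 ≤ n → c ∉ R → Gᶜ.Adj c u →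
    Gᶜ.Adj c v → ¬ ∀ w ∈ R, Gᶜ.Adj c w → w = u ∨ w = v) → NAH G

/-- (GOOD) every even pair between `sA` and `sB` is good. -/
def T_GOOD : Prop := ∀ (V : Type) (G : SimpleGraph V) (v : V) (k : ℕ) (z : ℕ → V) (a b : V),
  Cls G → NCo G v → F1 G v → SO G v k z → a ∈ sA G v k z → b ∈ sB G v k z → EvP G a b →
  Gd G a b

end Pool.Agent.H66.ER2
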