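import Pool.Agent.H48.ER.All
import Pool.Agent.H48.ER2.Top
import Pool.Agent.H56.ER2.Targets
import Pool.Agent.H1.ER2.GSD
import Pool.Agent.H1.ER2.GOP
import Pool.Agent.H13.ER2.ASD
import Pool.Agent.H2.ER2.GFL
import Pool.Agent.H24.ER2.GSP
import Pool.Agent.H24.ER2.REV
import Pool.Agent.H33.ER2.OIP
import Pool.Agent.H33.ER2.SPN
import Pool.Agent.H36.ER2.EXC
import Pool.Agent.H38.ER2.SPE
import Pool.Agent.H4.ER2.CC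
import Pool.Agent.H41.ER2.GC3
import Pool.Agent.H42.ER2.G3A
import Pool.Agent.H49.ER2.GMJ
import Pool.Agent.H54.ER2.GOOD
import Pool.Agent.H58.ER2.FAB
import Pool.Agent.H58.ER2.GC1
import Pool.Agent.H6.ER2.MPI
import Pool.Agent.H61.ER2.AS5
import Pool.Agent.H72.ER2.MNP
import Pool.Agent.H75.ER2.AS4
import Pool.Agent.H75.ER2.ASL
import Pool.Agent.H78.ER2.GDP
import Pool.Agent.H78.ER2.MNA
import Pool.Agent.H79.ER2.GC2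
import Pool.Agent.H81.ER2.OUE
import Pool.Agent.H93.ER2.GNC
import Pool.Agent.H93.ER2.GNR
import Pool.Agent.H94.ER2.LAB
import Pool.Agent.H98.ER2.SPV
import Pool.Agent.H99.ER2.MNH

/-!
# MP_816b90_co: meets and good pairs, assembly

`a_MEET : T_HTR → T_MPC → T_MEET`, `a_GOOD : T_HTR → T_VPR → Pool.Agent.H56.ER2.T_OGE → T_GOOD`.
-/

set_option autoImplicit false

namespace Pool.Agent.H66.ER2

open Pool.Agent.H48.ER Pool.Agent.H52.ER2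

theorem c_LAB : T_LAB := Pool.Agent.H94.ER2.pf_LAB
theorem c_MNH : T_MNH := Pool.Agent.H99.ER2.pf_MNH c_ROT c_LAB
theorem c_MNA : T_MNA := Pool.Agent.H78.ER2.pf_MNA c_ROT
theorem c_OUE : T_OUE := Pool.Agent.H81.ER2.pf_OUE
theorem c_FAB : T_FAB := Pool.Agent.H58.ER2.pf_FAB c_OUE
theorem c_REV : T_REV := Pool.Agent.H24.ER2.pf_REV
theorem c_EXC : T_EXC := Pool.Agent.H36.ER2.pf_EXC c_FAB
theorem c_OIP : T_OIP := Pool.Agent.H33.ER2.pf_OIP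
theorem c_SPN : T_SPN := Pool.Agent.H33.ER2.pf_SPN c_FST c_EVN
theorem c_SPE : T_SPE := Pool.Agent.H38.ER2.pf_SPE c_EVN c_HOL
theorem c_GSP : T_GSP := Pool.Agent.H24.ER2.pf_GSP c_SPI c_SPC c_W1
theorem c_GFL : T_GFL := Pool.Agent.H2.ER2.pf_GFL c_REV
theorem c_AS5 : T_AS5 := Pool.Agent.H61.ER2.pf_AS5 c_PYR
theorem c_CC (h : Pool.Agent.H52.ER2.T_CNA) : Pool.Agent.H48.ER2.T_CC :=
  Pool.Agent.H4.ER2.pf_CC c_CNH h

theorem a_ASD (hHTR : T_HTR) : T_ASD := Pool.Agent.H13.ER2.pf_ASD c_PYR hHTR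

theorem a_SPV (hHTR : T_HTR) : T_SPV :=
  Pool.Agent.H98.ER2.pf_SPV hHTR (a_ASD hHTR) c_SPN c_SPE

theorem a_MPI (hHTR : T_HTR) : T_MPI := Pool.Agent.H6.ER2.pf_MPI (a_SPV hHTR)

theorem a_MNP (hHTR : T_HTR) (hMPC : T_MPC) : T_MNP :=
  Pool.Agent.H72.ER2.pf_MNP hMPC (a_MPI hHTR)

theorem a_MEET (hHTR : T_HTR) (hMPC : T_MPC) : T_MEET :=
  Pool.Agent.H33.ER2.pf_MEET c_MNH c_MNA (a_MNP hHTR hMPC)

theorem a_ASL (hHTR : T_HTR) (hVPR : T_VPR) : T_ASL :=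
  Pool.Agent.H75.ER2.pf_ASL (a_ASD hHTR) (Pool.Agent.H75.ER2.pf_AS4 c_EVN hVPR) c_AS5

theorem a_OGE (hOGE : Pool.Agent.H56.ER2.T_OGE) : T_OGE :=
  fun V G v n z m a b R h1 h2 h3 h4 h5 => hOGE V G v n z ⟨h1, h2, h3, h4⟩ m a b R h5

theorem a_GOOD (hCNA : Pool.Agent.H52.ER2.T_CNA) (hHTR : T_HTR) (hVPR : T_VPR)
    (hOGE : Pool.Agent.H56.ER2.T_OGE) : T_GOOD := by
  have hASD := a_ASD hHTR
  have hASL := a_ASL hHTR hVPR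
  have hO := a_OGE hOGE
  have hGMJ : T_GMJ := Pool.Agent.H49.ER2.pf_GMJ (a_SPV hHTR)
  have hGDP : T_GDP := Pool.Agent.H78.ER2.pf_GDP c_CON c_EVN hGMJ
  have hGOP : T_GOP := Pool.Agent.H1.ER2.pf_GOP c_OUE hGMJ
  have hGSD : T_GSD := Pool.Agent.H1.ER2.pf_GSD hASL hGMJ c_GFL hGDP hGOP
  have hGC1 : T_GC1 := Pool.Agent.H58.ER2.pf_GC1 c_OUE c_GFL hGSD
  have hGC2 : T_GC2 := Pool.Agent.H79.ER2.pf_GC2 c_EVN hASD c_OUE hGMJ c_GFL hGDP hGSD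
  have hG3A : T_G3A := Pool.Agent.H42.ER2.pf_G3A c_HOL c_EVN c_OUE c_FAB hGMJ hO
  have hGC3 : T_GC3 := Pool.Agent.H41.ER2.pf_GC3 c_CON c_EVN hASL hGMJ c_OUE hG3A
  exact Pool.Agent.H54.ER2.pf_GOOD c_CNH (c_CC hCNA) c_FAB c_GSP c_GFL hGC1 hGC2 hGC3
    (Pool.Agent.H93.ER2.pf_GNR c_FAB hO) (Pool.Agent.H93.ER2.pf_GNC c_FAB hO)

end Pool.Agent.H66.ER2
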